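import Pool.Agent.TH179.SD.Geo2

/-!
# Project SD, G7bc: closed 1-forms on complements of subspaces
-/

set_option autoImplicit false

open scoped ContDiff Topology
open Set

noncomputable section

namespace Pool.Agent.TH55.SD

open Pool.Agent.TH179.SD

section general

variable {E : Type} [NormedAddCommGroup E] [NormedSpace ℝ E]

/-- the primitive of a closed 1-form on an open star-shaped set -/
theorem star_prim {U : Set E} (hU : IsOpen U) {e : E} (hs : StarConvex ℝ e U)
    {η : E → E →L[ℝ] ℝ} (hη : DifferentiableOn ℝ η U)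
    (hsym : ∀ a ∈ U, ∀ x y, fderiv ℝ η a x y = fderiv ℝ η a y x) :
    ∃ g : E → ℝ, ∀ a ∈ U, HasFDerivAt g (η a) a := by
  refine ⟨fun b => curveIntegral η (Path.segment e b), fun a ha => ?_⟩
  have hseg : segment ℝ e a ⊆ U := hs.segment_subset ha
  have hcomp : IsCompact (segment ℝ e a) := by
    rw [segment_eq_image_lineMap]
    exact isCompact_Icc.image (by fun_prop)
  obtain ⟨δ, hδ, hsub⟩ := hcomp.exists_thickening_subset_open hU hseg
  have hconv : Convex ℝ (Metric.thickening δ (segment ℝ e a)) := (convex_segment e a).thickening δ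
  have hopen : IsOpen (Metric.thickening δ (segment ℝ e a)) := Metric.isOpen_thickening
  have hss : segment ℝ e a ⊆ Metric.thickening δ (segment ℝ e a) :=
    Metric.self_subset_thickening hδ _
  have hd : ∀ x ∈ Metric.thickening δ (segment ℝ e a),
      HasFDerivWithinAt η (fderiv ℝ η x) (Metric.thickening δ (segment ℝ e a)) x := by
    intro x hx
    exact ((hη x (hsub hx)).differentiableAt (hU.mem_nhds (hsub hx))).hasFDerivAt.hasFDerivWithinAt
  have := hconv.hasFDerivWithinAt_curveIntegral_segment_of_hasFDerivWithinAt_symmetric hd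
    (fun x hx u _ v _ => hsym x (hsub hx) u v) (hss (left_mem_segment ℝ e a))
    (hss (right_mem_segment ℝ e a))
  exact this.hasFDerivAt (hopen.mem_nhds (hss (right_mem_segment ℝ e a)))

/-- gluing two primitives -/
theorem glue_prim {U1 U2 : Set E} (h1 : IsOpen U1) (h2 : IsOpen U2) {η : E → E →L[ℝ] ℝ}
    {g1 g2 : E → ℝ} (hg1 : ∀ a ∈ U1, HasFDerivAt g1 (η a) a)
    (hg2 : ∀ a ∈ U2, HasFDerivAt g2 (η a) a) (h12 : ∀ a ∈ U1 ∩ U2, g1 a = g2 a) :
    ∃ g : E → ℝ, ∀ a ∈ U1 ∪ U2, HasFDerivAt g (η a) a := by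
  classical
  refine ⟨fun a => if a ∈ U1 then g1 a else g2 a, fun a ha => ?_⟩
  by_cases ha1 : a ∈ U1
  · refine (hg1 a ha1).congr_of_eventuallyEq ?_
    filter_upwards [h1.mem_nhds ha1] with x hx
    simp [hx]
  · have ha2 : a ∈ U2 := ha.resolve_left ha1
    refine (hg2 a ha2).congr_of_eventuallyEq ?_
    filter_upwards [h2.mem_nhds ha2] with x hx
    by_cases hx1 : x ∈ U1
    · simp only [hx1, if_true]
      exact h12 x ⟨hx1, hx⟩
    · simp [hx1]

/-- two primitives differ by a constant on a connected open set -/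
theorem diff_const {U : Set E} (hU : IsOpen U) (hc : IsPreconnected U) {η : E → E →L[ℝ] ℝ}
    {g1 g2 : E → ℝ} (hg1 : ∀ a ∈ U, HasFDerivAt g1 (η a) a)
    (hg2 : ∀ a ∈ U, HasFDerivAt g2 (η a) a) : ∃ c : ℝ, ∀ a ∈ U, g1 a = g2 a + c := by
  have hd : ∀ a ∈ U, HasFDerivAt (fun x => g1 x - g2 x) (0 : E →L[ℝ] ℝ) a := by
    intro a ha
    have := (hg1 a ha).fun_sub (hg2 a ha)
    rwa [sub_self] at this
  rcases U.eq_empty_or_nonempty with rfl | ⟨a0, ha0⟩
  · exact ⟨0, by simp⟩
  refine ⟨g1 a0 - g2 a0, fun a ha => ?_⟩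
  have := hU.is_const_of_fderiv_eq_zero (𝕜 := ℝ) hc
    (fun x hx => (hd x hx).differentiableAt.differentiableWithinAt)
    (fun x hx => (hd x hx).fderiv) ha ha0
  linarith

/-- a primitive of a smooth form is smooth -/
theorem prim_smooth {U : Set E} (hU : IsOpen U) {η : E → E →L[ℝ] ℝ} {g : E → ℝ}
    (hg : ∀ a ∈ U, HasFDerivAt g (η a) a) (hη : ContDiffOn ℝ ∞ η U) : ContDiffOn ℝ ∞ g U := by
  rw [contDiffOn_infty_iff_fderiv_of_isOpen hU]
  refine ⟨fun a ha => (hg a ha).differentiableAt.differentiableWithinAt, ?_⟩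
  exact hη.congr fun a ha => (hg a ha).fderiv

end general

/-- 1-forms as covectors -/
def lie1 : (V →L[ℝ] ℝ) ≃ₗᵢ[ℝ] Alt 1 :=
  ContinuousAlternatingMap.ofSubsingletonLIE (0 : Fin 1)

/-- a 1-form as a covector -/
def cov (m : Alt 1) : V →L[ℝ] ℝ := (lie1).symm m

theorem one_cov (m : Alt 1) : one (cov m) = m :=
  (lie1).apply_symm_apply m

theorem cov_one (l : V →L[ℝ] ℝ) : cov (one l) = l :=
  (lie1).symm_apply_apply l

theorem cov_apply (m : Alt 1) (v : Fin 1 → V) : m v = cov m (v 0) := by
  conv_lhs => rw [← one_cov m]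
  rfl

theorem cov_contDiffOn {w : V → Alt 1} {U : Set V} (hw : ContDiffOn ℝ ∞ w U) :
    ContDiffOn ℝ ∞ (fun q => cov (w q)) U :=
  (lie1).symm.contDiff.comp_contDiffOn hw

theorem cov_symm {w : V → Alt 1} {q : V} (hw : DifferentiableAt ℝ w q) (h : extDeriv w q = 0)
    (x y : V) :
    fderiv ℝ (fun q => cov (w q)) q x y = fderiv ℝ (fun q => cov (w q)) q y x := by
  have hcd : DifferentiableAt ℝ (fun q => cov (w q)) q :=
    (lie1).symm.differentiable.differentiableAt.comp
      q hw
  have h1 : extDeriv w q ![x, y] = 0 := by rw [h]; rfl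
  rw [extDeriv_apply hw] at h1
  have e0 : (fun q => w q ((0 : Fin (1 + 1)).removeNth ![x, y])) = fun q => cov (w q) y := by
    funext q
    rw [cov_apply]
    rfl
  have e1 : (fun q => w q ((1 : Fin (1 + 1)).removeNth ![x, y])) = fun q => cov (w q) x := by
    funext q
    rw [cov_apply]
    rfl
  rw [Fin.sum_univ_two] at h1
  simp only [e0, e1] at h1
  have f0 : fderiv ℝ (fun q => cov (w q) y) q x = fderiv ℝ (fun q => cov (w q)) q x y := by
    have := hcd.hasFDerivAt.clm_apply (hasFDerivAt_const y q)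
    rw [this.fderiv]
    simp
  have f1 : fderiv ℝ (fun q => cov (w q) x) q y = fderiv ℝ (fun q => cov (w q)) q y x := by
    have := hcd.hasFDerivAt.clm_apply (hasFDerivAt_const x q)
    rw [this.fderiv]
    simp
  simp only [Matrix.cons_val_zero, Matrix.cons_val_one, Fin.val_zero, pow_zero, one_smul,
    Fin.val_one, pow_one, neg_smul] at h1
  rw [f0, f1] at h1
  linarith

/-- the primitive of a closed 1-form on a star-shaped set -/
theorem star_prim' {U : Set V} (hU : IsOpen U) {e : V} (hs : StarConvex ℝ e U)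
    {w : V → Alt 1} (hw : ContDiffOn ℝ ∞ w U) (hc : ∀ q ∈ U, extDeriv w q = 0) :
    ∃ g : V → ℝ, ∀ a ∈ U, HasFDerivAt g (cov (w a)) a := by
  refine star_prim hU hs ((cov_contDiffOn hw).differentiableOn (by simp)) ?_
  intro a ha x y
  exact cov_symm ((hw a ha).contDiffAt (hU.mem_nhds ha) |>.differentiableAt (by simp)) (hc a ha) x y

/-- the final form of the primitive -/
theorem prim_final {U : Set V} (hU : IsOpen U) {w : V → Alt 1} (hw : ContDiffOn ℝ ∞ w U)
    {g : V → ℝ} (hg : ∀ a ∈ U, HasFDerivAt g (cov (w a)) a) :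
    ContDiffOn ℝ ∞ g U ∧ ∀ q ∈ U, w q = one (fderiv ℝ g q) := by
  refine ⟨prim_smooth hU hg (cov_contDiffOn hw), fun q hq => ?_⟩
  rw [(hg q hq).fderiv, one_cov]

theorem finrank_V : Module.finrank ℝ V = 8 := by
  simp [V, Module.finrank_pi_fintype, Complex.finrank_real_complex]

theorem taskP1 : TaskP1 := by
  intro S hS w hw hc
  have hSc : IsClosed (S : Set V) := S.closed_of_finiteDimensional
  -- a vector outside `S`
  obtain ⟨e, he⟩ : ∃ e : V, e ∉ S := by
    by_contra hcon
    push Not at hcon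
    have : S = ⊤ := by
      rw [eq_top_iff]
      intro x _
      exact hcon x
    rw [this, finrank_top, finrank_V] at hS
    omega
  obtain ⟨f, hfe, hfS⟩ : ∃ f : V →L[ℝ] ℝ, f e = 1 ∧ ∀ s ∈ S, f s = 0 := by
    obtain ⟨f, hf1, hf2⟩ := S.exists_le_ker_of_notMem he
    have hfe : f e ≠ 0 := hf1
    refine ⟨LinearMap.toContinuousLinearMap ((f e)⁻¹ • f), ?_, ?_⟩
    · simp [hfe]
    · intro s hs
      have : f s = 0 := hf2 hs
      simp [this]
  set T : Submodule ℝ V := S ⊔ ℝ ∙ e with hT
  have hTc : IsClosed (T : Set V) := T.closed_of_finiteDimensional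
  have hST : S ≤ T := le_sup_left
  have hTdec : ∀ v ∈ T, f v = 0 → v ∈ S := by
    intro v hv hfv
    obtain ⟨s, hs, u, hu, rfl⟩ := Submodule.mem_sup.1 hv
    obtain ⟨r, rfl⟩ := Submodule.mem_span_singleton.1 hu
    simp only [map_add, map_smul, hfS s hs, hfe, smul_eq_mul, mul_one, zero_add] at hfv
    simpa [hfv] using hs
  set U1 : Set V := (T : Set V)ᶜ ∪ {v | 0 < f v} with hU1
  set U2 : Set V := (T : Set V)ᶜ ∪ {v | f v < 0} with hU2
  have hU1o : IsOpen U1 := hTc.isOpen_compl.union (isOpen_lt continuous_const f.continuous)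
  have hU2o : IsOpen U2 := hTc.isOpen_compl.union (isOpen_lt f.continuous continuous_const)
  have hU1S : ∀ q ∈ U1, q ∉ S := by
    rintro q (hq | hq) hqS
    · exact hq (hST hqS)
    · have := hfS q hqS
      simp only [mem_ofPred_eq] at hq
      linarith
  have hU2S : ∀ q ∈ U2, q ∉ S := by
    rintro q (hq | hq) hqS
    · exact hq (hST hqS)
    · have := hfS q hqS
      simp only [mem_ofPred_eq] at hq
      linarith
  have hun : {q : V | q ∉ S} = U1 ∪ U2 := by
    ext q
    constructor
    · intro hq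
      by_cases hqT : q ∈ T
      · rcases lt_trichotomy (f q) 0 with h | h | h
        · exact Or.inr (Or.inr h)
        · exact absurd (hTdec q hqT h) hq
        · exact Or.inl (Or.inr h)
      · exact Or.inl (Or.inl hqT)
    · rintro (hq | hq)
      · exact hU1S q hq
      · exact hU2S q hq
  have hinter : U1 ∩ U2 = (T : Set V)ᶜ := by
    ext q
    constructor
    · rintro ⟨h1 | h1, h2 | h2⟩
      · exact h1
      · exact h1
      · exact h2
      · simp only [mem_ofPred_eq] at h1 h2
        linarith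
    · intro h
      exact ⟨Or.inl h, Or.inl h⟩
  have heT : e ∈ T := Submodule.mem_sup_right (Submodule.mem_span_singleton_self e)
  have hstar1 : StarConvex ℝ e U1 := by
    intro v hv a b ha hb hab
    rcases hv with hv | hv
    · rcases hb.eq_or_lt with hb0 | hb0
      · refine Or.inr ?_
        have ha1 : a = 1 := by linarith
        simp [← hb0, ha1, hfe]
      · refine Or.inl fun hmem => hv ?_
        have h1 : b • v ∈ T := by
          have := T.sub_mem hmem (T.smul_mem a heT)
          simpa using this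
        exact (T.smul_mem_iff hb0.ne').1 h1
    · refine Or.inr ?_
      simp only [mem_ofPred_eq] at hv ⊢
      simp only [map_add, map_smul, hfe, smul_eq_mul, mul_one]
      rcases hb.eq_or_lt with hb0 | hb0
      · have : a = 1 := by linarith
        simp [← hb0, this]
      · positivity
  have hstar2 : StarConvex ℝ (-e) U2 := by
    intro v hv a b ha hb hab
    rcases hv with hv | hv
    · rcases hb.eq_or_lt with hb0 | hb0
      · refine Or.inr ?_
        have ha1 : a = 1 := by linarith
        simp [← hb0, ha1, hfe]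
      · refine Or.inl fun hmem => hv ?_
        have h1 : b • v ∈ T := by
          have := T.sub_mem hmem (T.smul_mem a (T.neg_mem heT))
          simpa using this
        exact (T.smul_mem_iff hb0.ne').1 h1
    · refine Or.inr ?_
      simp only [mem_ofPred_eq] at hv ⊢
      simp only [map_add, map_smul, map_neg, hfe, smul_eq_mul, mul_neg, mul_one]
      rcases hb.eq_or_lt with hb0 | hb0
      · have : a = 1 := by linarith
        simp [← hb0, this]
      · nlinarith [mul_neg_of_pos_of_neg hb0 hv]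
  obtain ⟨g1, hg1⟩ := star_prim' hU1o hstar1 (hw.mono fun q hq => hU1S q hq)
    (fun q hq => hc q (hU1S q hq))
  obtain ⟨g2, hg2⟩ := star_prim' hU2o hstar2 (hw.mono fun q hq => hU2S q hq)
    (fun q hq => hc q (hU2S q hq))
  have hconn : IsPreconnected (U1 ∩ U2) := by
    rw [hinter]
    refine (isConnected_compl_of_one_lt_codim ?_).isPreconnected
    have h1 : Module.finrank ℝ T ≤ 6 := by
      have h0 := Submodule.finrank_add_le_finrank_add_finrank S (ℝ ∙ e)
      have he0 : e ≠ 0 := fun h => he (h ▸ S.zero_mem)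
      have h2 : Module.finrank ℝ (ℝ ∙ e) = 1 := finrank_span_singleton he0
      rw [h2, ← hT] at h0
      omega
    have h2 := T.finrank_quotient_add_finrank
    rw [finrank_V] at h2
    rw [← Module.finrank_eq_rank]
    have h3 : 1 < Module.finrank ℝ (V ⧸ T) := by omega
    exact_mod_cast h3
  obtain ⟨c, hc'⟩ := diff_const (hU1o.inter hU2o) hconn (fun a ha => hg1 a ha.1)
    (fun a ha => hg2 a ha.2)
  obtain ⟨g, hg⟩ := glue_prim (η := fun a => cov (w a)) hU1o hU2o hg1
    (g2 := fun a => g2 a + c) (fun a ha => (hg2 a ha).add_const c) hc'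
  rw [← hun] at hg
  have hopen : IsOpen {q : V | q ∉ S} := hSc.isOpen_compl
  exact ⟨g, prim_final hopen hw hg⟩

theorem darg_apply (v u : V) : darg v u = ((v 0)⁻¹ * u 0).im := by
  simp [darg]

/-- `darg` is the derivative of the argument -/
theorem hasFDerivAt_arg (v : V) (hv : v 0 ∈ Complex.slitPlane) :
    HasFDerivAt (fun q : V => (Complex.log (q 0)).im) (darg v) v := by
  have h1 : HasFDerivAt (fun q : V => q 0)
      ((ContinuousLinearMap.proj (R := ℂ) (φ := fun _ : Fin 4 => ℂ) 0).restrictScalars ℝ) v :=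
    ((ContinuousLinearMap.proj (R := ℂ) (φ := fun _ : Fin 4 => ℂ) 0).restrictScalars ℝ).hasFDerivAt
  have h2 := (Complex.hasStrictDerivAt_log hv).hasDerivAt.hasFDerivAt.restrictScalars ℝ
  have h3 := Complex.imCLM.hasFDerivAt.comp v (h2.comp v h1)
  refine h3.congr_fderiv ?_
  ext u
  simp [darg_apply, mul_comm]

theorem hasFDerivAt_arg_neg (v : V) (hv : -v 0 ∈ Complex.slitPlane) :
    HasFDerivAt (fun q : V => (Complex.log (-q 0)).im) (darg v) v := by
  have h1 : HasFDerivAt (fun q : V => -q) (-ContinuousLinearMap.id ℝ V) v :=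
    (hasFDerivAt_id v).neg
  have h2 := (hasFDerivAt_arg (-v) hv).comp v h1
  refine h2.congr_fderiv ?_
  ext u
  simp [darg_apply, mul_comm]

theorem taskP1c : TaskP1c := by
  intro w hw hc
  set U1 : Set V := {q | q 0 ∈ Complex.slitPlane} with hU1
  set U2 : Set V := {q | -q 0 ∈ Complex.slitPlane} with hU2
  have hU1o : IsOpen U1 := Complex.isOpen_slitPlane.preimage (continuous_apply 0)
  have hU2o : IsOpen U2 := Complex.isOpen_slitPlane.preimage (continuous_apply 0).neg
  have hU1S : ∀ q ∈ U1, q 0 ≠ 0 := fun q hq => Complex.slitPlane_ne_zero hq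
  have hU2S : ∀ q ∈ U2, q 0 ≠ 0 := fun q hq h => by
    have := Complex.slitPlane_ne_zero hq
    exact this (by simp [h])
  have hun : {q : V | q 0 ≠ 0} = U1 ∪ U2 := by
    ext q
    constructor
    · intro hq
      simp only [hU1, hU2, mem_union, mem_ofPred_eq, Complex.mem_slitPlane_iff, Complex.neg_re,
        Complex.neg_im]
      by_contra hcon
      push Not at hcon
      obtain ⟨⟨h1, h2⟩, h3, -⟩ := hcon
      exact hq (Complex.ext (by simp; linarith) h2)
    · rintro (hq | hq)
      · exact hU1S q hq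
      · exact hU2S q hq
  have hstar0 : StarConvex ℝ (1 : ℂ) Complex.slitPlane := Complex.starConvex_one_slitPlane
  have hstar1 : StarConvex ℝ (Pi.single 0 1 : V) U1 := by
    intro v hv a b ha hb hab
    have := hstar0 hv ha hb hab
    simpa [hU1] using this
  have hstar2 : StarConvex ℝ (-Pi.single 0 1 : V) U2 := by
    intro v hv a b ha hb hab
    have := hstar0 hv ha hb hab
    simp only [hU2, mem_ofPred_eq]
    convert this using 1
    simp
    ring
  obtain ⟨g1, hg1⟩ := star_prim' hU1o hstar1 (hw.mono fun q hq => hU1S q hq)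
    (fun q hq => hc q (hU1S q hq))
  obtain ⟨g2, hg2⟩ := star_prim' hU2o hstar2 (hw.mono fun q hq => hU2S q hq)
    (fun q hq => hc q (hU2S q hq))
  set P : Set V := {q | 0 < (q 0).im} with hP
  set N : Set V := {q | (q 0).im < 0} with hN
  have himc : Continuous fun q : V => (q 0).im := Complex.continuous_im.comp (continuous_apply 0)
  have hPo : IsOpen P := isOpen_lt continuous_const himc
  have hNo : IsOpen N := isOpen_lt himc continuous_const
  have hPc : Convex ℝ P := by
    intro x hx y hy a b ha hb hab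
    simp only [hP, mem_ofPred_eq] at hx hy ⊢
    have : ((a • x + b • y) 0).im = a * (x 0).im + b * (y 0).im := by simp
    rw [this]
    rcases ha.eq_or_lt with h | h
    · have hb1 : b = 1 := by linarith
      rw [← h, hb1]; linarith
    · have := mul_pos h hx
      have := mul_nonneg hb hy.le
      linarith
  have hNc : Convex ℝ N := by
    intro x hx y hy a b ha hb hab
    simp only [hN, mem_ofPred_eq] at hx hy ⊢
    have : ((a • x + b • y) 0).im = a * (x 0).im + b * (y 0).im := by simp
    rw [this]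
    rcases ha.eq_or_lt with h | h
    · have hb1 : b = 1 := by linarith
      rw [← h, hb1]; linarith
    · have := mul_neg_of_pos_of_neg h hx
      have := mul_nonneg hb (neg_nonneg.2 hy.le)
      linarith
  have hP1 : ∀ q ∈ P, q ∈ U1 := fun q hq => Or.inr (ne_of_gt hq)
  have hP2 : ∀ q ∈ P, q ∈ U2 := fun q hq => Or.inr (by
    simp only [Complex.neg_im]; exact neg_ne_zero.2 (ne_of_gt hq))
  have hN1 : ∀ q ∈ N, q ∈ U1 := fun q hq => Or.inr (ne_of_lt hq)
  have hN2 : ∀ q ∈ N, q ∈ U2 := fun q hq => Or.inr (by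
    simp only [Complex.neg_im]; exact neg_ne_zero.2 (ne_of_lt hq))
  obtain ⟨c1, hc1⟩ := diff_const hPo hPc.isPreconnected (fun a ha => hg1 a (hP1 a ha))
    (fun a ha => hg2 a (hP2 a ha))
  obtain ⟨c2, hc2⟩ := diff_const hNo hNc.isPreconnected (fun a ha => hg1 a (hN1 a ha))
    (fun a ha => hg2 a (hN2 a ha))
  set t : ℝ := (c1 - c2) / (2 * Real.pi) with ht
  have hpi := Real.pi_pos
  have htpi : t * (2 * Real.pi) = c1 - c2 := by
    rw [ht]; field_simp
  have k1 : ∀ a ∈ U1, HasFDerivAt (fun q => g1 q - t * (Complex.log (q 0)).im)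
      (cov (w a) - t • darg a) a := fun a ha =>
    (hg1 a ha).fun_sub ((hasFDerivAt_arg a ha).const_mul t)
  have k2 : ∀ a ∈ U2, HasFDerivAt
      (fun q => g2 q - t * (Complex.log (-q 0)).im + (c1 + c2) / 2)
      (cov (w a) - t • darg a) a := fun a ha =>
    ((hg2 a ha).fun_sub ((hasFDerivAt_arg_neg a ha).const_mul t)).add_const _
  obtain ⟨g, hg⟩ := glue_prim (η := fun a => cov (w a) - t • darg a) hU1o hU2o k1 k2 (by
    rintro q ⟨hq1, hq2⟩
    have him : (q 0).im ≠ 0 := by
      intro h
      rcases hq1 with h1 | h1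
      · rcases hq2 with h2 | h2
        · simp only [Complex.neg_re] at h2; linarith
        · simp [h] at h2
      · exact h1 h
    rcases lt_or_gt_of_ne him with h | h
    · have h3 := hc2 q h
      have h4 := Complex.arg_neg_eq_arg_add_pi_of_im_neg h
      simp only [Complex.log_im]
      rw [h4, h3]
      linarith
    · have h3 := hc1 q h
      have h4 := Complex.arg_neg_eq_arg_sub_pi_of_im_pos h
      simp only [Complex.log_im]
      rw [h4, h3]
      linarith)
  rw [← hun] at hg
  have hopen : IsOpen {q : V | q 0 ≠ 0} := isOpen_ne.preimage (continuous_apply 0)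
  have hdsm : ContDiffOn ℝ ∞ (fun q : V => darg q) {q : V | q 0 ≠ 0} := by
    have h1 : ContDiffOn ℝ ∞ (fun q : V => (q 0)⁻¹) {q : V | q 0 ≠ 0} := by
      refine ContDiffOn.inv ?_ fun q hq => hq
      exact (contDiff_apply ℝ ℂ 0).contDiffOn
    have h2 : ContDiff ℝ ∞ (fun z : ℂ => Complex.imCLM.comp
        (((z • (ContinuousLinearMap.proj (R := ℂ) (φ := fun _ : Fin 4 => ℂ) 0)
          : V →L[ℂ] ℂ).restrictScalars ℝ))) := by
      have : (fun z : ℂ => Complex.imCLM.comp
        (((z • (ContinuousLinearMap.proj (R := ℂ) (φ := fun _ : Fin 4 => ℂ) 0)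
          : V →L[ℂ] ℂ).restrictScalars ℝ))) = fun z : ℂ =>
          z.re • (Complex.imCLM.comp ((ContinuousLinearMap.proj (R := ℂ)
            (φ := fun _ : Fin 4 => ℂ) 0).restrictScalars ℝ)) +
          z.im • (Complex.reCLM.comp ((ContinuousLinearMap.proj (R := ℂ)
            (φ := fun _ : Fin 4 => ℂ) 0).restrictScalars ℝ)) := by
        funext z
        ext u
        simp
      rw [this]
      exact (Complex.reCLM.contDiff.smul contDiff_const).add
        (Complex.imCLM.contDiff.smul contDiff_const)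
    exact h2.comp_contDiffOn h1
  refine ⟨t, g, prim_smooth hopen hg ((cov_contDiffOn hw).sub (hdsm.const_smul t)), ?_⟩
  intro q hq
  rw [(hg q hq).fderiv]
  have : one (cov (w q) - t • darg q) = one (cov (w q)) - t • one (darg q) := rfl
  rw [this, one_cov]
  abel

end Pool.Agent.TH55.SD
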